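import Mathlib
import Pool.Agent.K4H96.HS.Free

/-!
# MP_09cbbd_mp: a Brunn-Minkowski inequality for the hard-sphere gas

Let `P_r(Λ)` be the set of the configurations of `N` points of `Λ ⊆ ℝ^d` at mutual distances at
least `r`. For all compact `Λ₁, Λ₂` and all `α, β`
`|P_√(α²+β²)(Λ₁ + Λ₂)|^(1/dN) ≥ |P_α(Λ₁)|^(1/dN) + |P_β(Λ₂)|^(1/dN)`
(for `N = 1` this is the Brunn-Minkowski inequality; for `d = 1` and intervals there is equality
with `α + β` in place of `√(α²+β²)`).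

In the thermodynamic limit, with `h(ρ) = exp(-f_exc(ρ)/d)`, `f_exc = f - (log ρ - 1)` the excess
free energy per particle: for all densities below close packing, through any phase transitions,

* `(1 - h(ρ)) / ρ^(1/d)` is nondecreasing and at most `ρ₀^(-1/d)`, in particular
  `f ≤ log ρ - 1 - d log(1 - (ρ/ρ₀)^(1/d))` (equality for `d = 1`);
* `s h(ρ₁) + (1-s) h(ρ₂) ≤ h(ρ)` if `ρ^(2/d) = s² ρ₁^(2/d) + (1-s)² ρ₂^(2/d)`.

Proof. Discretise: a set `E` invariant under the permutations of the particles is covered by small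
cubes; there are permutation invariant weights whose power diagram cuts the invariant set `K` into
cells of equal volume, one for each cube; the sums of cell and cube are separated by hyperplanes,
and by invariance of the weights all pairs satisfy `⟨x_i - x_j, y_i - y_j⟩ ≥ 0` up to the mesh.
The ordinary Brunn-Minkowski inequality for each cell and cube gives the claim in the limit.
-/

set_option autoImplicit false

open MeasureTheory Set Filter Topology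
open scoped Pointwise

namespace Pool.Agent.Results.MP_09cbbd_mp.BrunnMinkowski

open Pool.Agent.K4H96.HS

theorem result :
    ∀ d : ℕ, 1 ≤ d →
      (∀ N : ℕ, 1 ≤ N → ∀ (α β : ℝ) (Λ₁ Λ₂ : Set (Fin d → ℝ)), IsCompact Λ₁ → IsCompact Λ₂ →
        (Conf N d α Λ₁).Nonempty → (Conf N d β Λ₂).Nonempty →
        (volume (Conf N d α Λ₁)).toReal ^ ((1:ℝ) / (N * d : ℕ)) +
          (volume (Conf N d β Λ₂)).toReal ^ ((1:ℝ) / (N * d : ℕ)) ≤
          (volume (Conf N d (Real.sqrt (α ^ 2 + β ^ 2)) (Λ₁ + Λ₂))).toReal ^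
            ((1:ℝ) / (N * d : ℕ))) ∧
      (∀ a : ℝ, 0 < a →
        (∀ ρ f : ℝ, 0 < ρ → IsFreeEnergy d a ρ f →
          freeSide d a ρ = Real.exp (-(f - (Real.log ρ - 1)) / d)) ∧
        (∀ ρ₁ ρ₂ : ℝ, 0 < ρ₁ → ρ₁ ≤ ρ₂ → ρ₂ < closePacking d a →
          (1 - freeSide d a ρ₁) / ρ₁ ^ ((1:ℝ) / d) ≤ (1 - freeSide d a ρ₂) / ρ₂ ^ ((1:ℝ) / d) ∧
          (1 - freeSide d a ρ₂) / ρ₂ ^ ((1:ℝ) / d) ≤ 1 / closePacking d a ^ ((1:ℝ) / d)) ∧
        (∀ ρ₁ ρ₂ s : ℝ, 0 < ρ₁ → ρ₁ < closePacking d a → 0 < ρ₂ → ρ₂ < closePacking d a →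
          0 < s → s < 1 →
          s * freeSide d a ρ₁ + (1 - s) * freeSide d a ρ₂ ≤
            freeSide d a ((s ^ 2 * ρ₁ ^ ((2:ℝ) / d) + (1 - s) ^ 2 * ρ₂ ^ ((2:ℝ) / d)) ^
              ((d:ℝ) / 2)))) := by
  intro d hd
  have hd' : (0:ℝ) < d := by exact_mod_cast hd
  refine ⟨fun N hN α β Λ₁ Λ₂ h₁ h₂ n₁ n₂ => conf_bm hN hd α β Λ₁ Λ₂ h₁ h₂ n₁ n₂,
    fun a _ => ⟨fun ρ f hρ hf => freeSide_of_isFreeEnergy hd a ρ f hρ hf, ?_, ?_⟩⟩
  · intro ρ₁ ρ₂ h₁ h₁₂ h₂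
    have hρ₂ : 0 < ρ₂ := lt_of_lt_of_le h₁ h₁₂
    set w := ρ₁ ^ ((1:ℝ) / (d : ℕ)) with hw
    set u := ρ₂ ^ ((1:ℝ) / (d : ℕ)) with hu
    have hwd : w ^ d = ρ₁ := root_pow hd h₁.le
    have hud : u ^ d = ρ₂ := root_pow hd hρ₂.le
    have hw0 : 0 < w := Real.rpow_pos_of_pos h₁ _
    have hu0 : 0 < u := Real.rpow_pos_of_pos hρ₂ _
    have hwu : w ≤ u := Real.rpow_le_rpow h₁.le h₁₂ (by positivity)
    constructor
    · have hq := freeSide_quot hd a w u hw0 hwu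
        (by rw [hud]; exact feasible_of_lt hd a ρ₂ hρ₂ h₂)
      rw [hwd, hud] at hq
      rw [div_le_div_iff₀ hw0 hu0]
      have h5 : (1 - freeSide d a ρ₁) ≤ w / u * (1 - freeSide d a ρ₂) := by linarith
      calc (1 - freeSide d a ρ₁) * u ≤ (w / u * (1 - freeSide d a ρ₂)) * u := by gcongr
        _ = (1 - freeSide d a ρ₂) * w := by field_simp
    · have hp := freeSide_packing hd a u hu0 (by rw [hud]; exact h₂)
      rw [hud] at hp
      have hρ₀ : 0 < closePacking d a := hρ₂.trans h₂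
      have hc : 0 < closePacking d a ^ ((1:ℝ) / (d : ℕ)) := Real.rpow_pos_of_pos hρ₀ _
      rw [div_le_div_iff₀ hu0 hc]
      have h5 : 1 - freeSide d a ρ₂ ≤ u / closePacking d a ^ ((1:ℝ) / (d : ℕ)) := by linarith
      calc (1 - freeSide d a ρ₂) * closePacking d a ^ ((1:ℝ) / (d : ℕ))
          ≤ (u / closePacking d a ^ ((1:ℝ) / (d : ℕ))) *
            closePacking d a ^ ((1:ℝ) / (d : ℕ)) := by gcongr
        _ = 1 * u := by field_simp
  · intro ρ₁ ρ₂ s h₁ h₁' h₂ h₂' hs0 hs1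
    set u₁ := ρ₁ ^ ((1:ℝ) / (d : ℕ)) with hu₁
    set u₂ := ρ₂ ^ ((1:ℝ) / (d : ℕ)) with hu₂
    have e₁ : u₁ ^ d = ρ₁ := root_pow hd h₁.le
    have e₂ : u₂ ^ d = ρ₂ := root_pow hd h₂.le
    have hu₁0 : 0 < u₁ := Real.rpow_pos_of_pos h₁ _
    have hu₂0 : 0 < u₂ := Real.rpow_pos_of_pos h₂ _
    have h := freeSide_bm hd a u₁ u₂ s hu₁0 hu₂0 hs0 hs1
      (by rw [e₁]; exact feasible_of_lt hd a ρ₁ h₁ h₁')
      (by rw [e₂]; exact feasible_of_lt hd a ρ₂ h₂ h₂')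
    rw [e₁, e₂] at h
    have s₁ : u₁ ^ 2 = ρ₁ ^ ((2:ℝ) / d) := by
      rw [hu₁, ← Real.rpow_natCast, ← Real.rpow_mul h₁.le]
      congr 1
      push_cast
      ring
    have s₂ : u₂ ^ 2 = ρ₂ ^ ((2:ℝ) / d) := by
      rw [hu₂, ← Real.rpow_natCast, ← Real.rpow_mul h₂.le]
      congr 1
      push_cast
      ring
    have s₃ : Real.sqrt ((s * u₁) ^ 2 + ((1 - s) * u₂) ^ 2) ^ d =
        (s ^ 2 * ρ₁ ^ ((2:ℝ) / d) + (1 - s) ^ 2 * ρ₂ ^ ((2:ℝ) / d)) ^ ((d:ℝ) / 2) := by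
      rw [mul_pow, mul_pow, s₁, s₂, Real.sqrt_eq_rpow, ← Real.rpow_natCast,
        ← Real.rpow_mul (by positivity)]
      congr 1
      ring
    rw [s₃] at h
    exact h

end Pool.Agent.Results.MP_09cbbd_mp.BrunnMinkowski
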