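import Pool.Agent.K4H61.HS.Jump

/-!
# The free energy of hard spheres in high dimension is mean field, and has no large first-order
# transition, up to packing density `(log (2/√3) - ε) d 2^{-d}`

Let `B` be the volume of the ball of radius `2a` in `ℝ^d` and `λ = ρ B`. For every `ε > 0`, all
large `d` and all densities with `λ ≤ (log (2/√3) - ε) d` the free energy per particle of the
hard-sphere gas is `log ρ - 1 + λ/2` (the virial series cut after the second virial coefficient)
up to an error of at most `exp (-ε d / 6)`. Consequently the free energy, as a function of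
`v = 1/ρ`, has no affine piece in this range between densities whose relative difference is more
than `exp (-ε d / 12)`: every first-order transition there has an exponentially small jump of the
density.

Upper bound for the partition function: counting of independent sets in the graph of small cells by
the method of Kleitman and Winston, where the supersaturation comes from a lower bound for the
Fourier transform of the ball. Lower bound: the occupancy method for the hard core model on this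
graph, and comparison of the grand canonical and the canonical ensemble.
-/

set_option autoImplicit false
open MeasureTheory Filter Topology

namespace Pool.Agent.Results.MP_09cbbd_mp.HighDimensionalMeanField

/-- The hard-core function: `1` if the balls of radius `a` at distance `t` do not overlap. -/
noncomputable def S (a t : ℝ) : ℝ := if 2 * a ≤ t then 1 else 0

/-- The partition function `Z(Λ, N) = (1/N!) ∫_{Λ^N} ∏_{i<j} S(|x_i - x_j|) dx` of the cube
`Λ = [0, L]^d` in `ℝ^d`. -/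
noncomputable def Z (d : ℕ) (a L : ℝ) (N : ℕ) : ℝ :=
  1 / (N.factorial : ℝ) * ∫ x in {x : Fin N → Fin d → ℝ | ∀ i k, x i k ∈ Set.Icc (0 : ℝ) L},
    ∏ i, ∏ j ∈ Finset.Ioi i, S a (√(∑ k, (x i k - x j k) ^ 2))

/-- The volume of the ball of radius `r` in `ℝ^d`. -/
noncomputable def ballVolume (d : ℕ) (r : ℝ) : ℝ :=
  (volume {x : Fin d → ℝ | ∑ k, x k ^ 2 < r ^ 2}).toReal

/-- `y` is the limiting free energy per particle at density `ρ`: it is the limit of
`-(1/N) log Z(Λ, N)` along all sequences of cubes with `L → ∞` and `N / L^d → ρ`. -/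
def IsFreeEnergy (d : ℕ) (a ρ y : ℝ) : Prop :=
  ∀ (L : ℕ → ℝ) (N : ℕ → ℕ), Tendsto L atTop atTop →
    Tendsto (fun k => (N k : ℝ) / L k ^ d) atTop (𝓝 ρ) →
    Tendsto (fun k => -(1 / (N k : ℝ)) * Real.log (Z d a (L k) (N k))) atTop (𝓝 y)

lemma Z_eq (d : ℕ) {a : ℝ} (ha : 0 < a) (L : ℝ) (N : ℕ) : Z d a L N = K4H61.HS.ZZ d (2 * a) L N := by
  classical
  unfold Z K4H61.HS.ZZ
  rw [one_div, inv_mul_eq_div]
  congr 1
  set C : Set (Fin N → Fin d → ℝ) := {x | ∀ i k, x i k ∈ Set.Icc (0 : ℝ) L} with hC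
  set G : Set (Fin N → Fin d → ℝ) := {x | ∀ i, ∀ j ∈ Finset.Ioi i,
    2 * a ≤ √(∑ k, (x i k - x j k) ^ 2)} with hG
  have h1 : ∀ x : Fin N → Fin d → ℝ, ∏ i, ∏ j ∈ Finset.Ioi i, S a (√(∑ k, (x i k - x j k) ^ 2)) =
      G.indicator (fun _ => (1 : ℝ)) x := by
    intro x
    by_cases hx : x ∈ G
    · rw [Set.indicator_of_mem hx]
      refine Finset.prod_eq_one fun i _ => Finset.prod_eq_one fun j hj => ?_
      unfold S
      rw [if_pos (hx i j hj)]
    · rw [Set.indicator_of_notMem hx]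
      have hx' : ¬ ∀ i, ∀ j ∈ Finset.Ioi i, 2 * a ≤ √(∑ k, (x i k - x j k) ^ 2) := hx
      push Not at hx'
      obtain ⟨i, j, hj, hij⟩ := hx'
      refine Finset.prod_eq_zero (Finset.mem_univ i) (Finset.prod_eq_zero hj ?_)
      unfold S
      rw [if_neg (not_le.2 hij)]
  have hGm : MeasurableSet G := by
    have : G = ⋂ i, ⋂ j ∈ Finset.Ioi i,
        {x : Fin N → Fin d → ℝ | 2 * a ≤ √(∑ k, (x i k - x j k) ^ 2)} := by
      ext x
      simp [hG]
    rw [this]
    refine MeasurableSet.iInter fun i => Finset.measurableSet_biInter _ fun j _ => ?_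
    exact measurableSet_le measurable_const (by fun_prop)
  simp_rw [h1]
  rw [setIntegral_indicator hGm]
  simp only [integral_const, smul_eq_mul, mul_one]
  rw [Measure.real, Measure.restrict_apply_univ]
  congr 2
  ext x
  simp only [Set.mem_inter_iff]
  have hd : ∀ i j, (2 * a ≤ √(∑ k, (x i k - x j k) ^ 2)) ↔
      (2 * a) ^ 2 ≤ ∑ k, (x i k - x j k) ^ 2 := by
    intro i j
    exact Real.le_sqrt' (by positivity)
  constructor
  · rintro ⟨hx1, hx2⟩
    refine ⟨hx1, fun i j hij => ?_⟩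
    rcases lt_or_gt_of_ne hij with h | h
    · exact (hd i j).1 (hx2 i j (Finset.mem_Ioi.2 h))
    · have h3 := (hd j i).1 (hx2 j i (Finset.mem_Ioi.2 h))
      refine h3.trans (le_of_eq (Finset.sum_congr rfl fun k _ => ?_))
      ring
  · rintro ⟨hx1, hx2⟩
    exact ⟨hx1, fun i j hj => (hd i j).2 (hx2 i j (ne_of_lt (Finset.mem_Ioi.1 hj)))⟩

/-- **Mean field theorem for hard spheres in high dimension.** For every `ε > 0` and all large `d`,
in the range `ρ vol B(2a) ≤ (log (2/√3) - ε) d` the free energy per particle is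
`log ρ - 1 + ρ vol B(2a) / 2` up to `exp (-ε d / 6)`, and it has no affine piece (as a function of
`v = 1/ρ`) between densities of relative difference more than `exp (-ε d / 12)`. -/
theorem result (ε : ℝ) (hε : 0 < ε) : ∃ d₀ : ℕ, ∀ d ≥ d₀, ∀ a > 0,
    (∀ ρ > 0, ρ * ballVolume d (2 * a) ≤ (Real.log (2 / √3) - ε) * d →
      ∀ (L : ℕ → ℝ) (N : ℕ → ℕ), Tendsto L atTop atTop →
        Tendsto (fun k => (N k : ℝ) / L k ^ d) atTop (𝓝 ρ) →
        ∀ᶠ k in atTop, 0 < Z d a (L k) (N k) ∧
          |-(1 / (N k : ℝ)) * Real.log (Z d a (L k) (N k)) -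
            (Real.log ρ - 1 + ρ * ballVolume d (2 * a) / 2)| ≤ Real.exp (-(ε / 6) * d)) ∧
    ∀ f : ℝ → ℝ,
      (∀ ρ > 0, ρ * ballVolume d (2 * a) ≤ (Real.log (2 / √3) - ε) * d →
        IsFreeEnergy d a ρ (f ρ)) →
      ∀ ρ₁ ρ₂ A P : ℝ, 0 < ρ₁ → ρ₁ < ρ₂ →
        ρ₂ * ballVolume d (2 * a) ≤ (Real.log (2 / √3) - ε) * d →
        (∀ ρ ∈ Set.Icc ρ₁ ρ₂, f ρ = A - P / ρ) → ρ₂ - ρ₁ ≤ Real.exp (-(ε / 12) * d) * ρ₂ := by
  obtain ⟨d₀, hd₀⟩ := eventually_atTop.1 (K4H61.HS.free_energy ε hε)
  refine ⟨max d₀ 1, fun d hd a ha => ?_⟩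
  have hd1 : 1 ≤ d := (le_max_right _ _).trans hd
  have ha2 : 0 < 2 * a := by positivity
  have main := hd₀ d ((le_max_left _ _).trans hd) (2 * a) ha2
  have hbv : ballVolume d (2 * a) = K4H61.HS.bv d (2 * a) := rfl
  have hB0 : 0 < ballVolume d (2 * a) := by rw [hbv]; exact K4H61.HS.bv_pos d ha2
  have hexp : -(ε / 6 * (d : ℝ)) = -(ε / 6) * d := by ring
  rw [hexp] at main
  have he := Real.exp_pos (-(ε / 6) * (d : ℝ))
  constructor
  · intro ρ hρ hlam L N hL hN
    filter_upwards [main ρ hρ hlam L N hL hN] with k hk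
    rw [Z_eq d ha]
    refine ⟨hk.1, hk.2.trans ?_⟩
    linarith
  · intro f hf ρ₁ ρ₂ A P h1 h12 hlam haff
    have hlim : ∀ ρ ∈ Set.Icc ρ₁ ρ₂, |f ρ - (Real.log ρ - 1 + ρ * ballVolume d (2 * a) / 2)| ≤
        Real.exp (-(ε / 6) * d) / 64 := by
      intro ρ hρ
      have hρ0 : 0 < ρ := lt_of_lt_of_le h1 hρ.1
      have hρl : ρ * ballVolume d (2 * a) ≤ (Real.log (2 / √3) - ε) * d :=
        (mul_le_mul_of_nonneg_right hρ.2 hB0.le).trans hlam
      have hL : Tendsto (fun k : ℕ => (k : ℝ)) atTop atTop := tendsto_natCast_atTop_atTop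
      have hN : Tendsto (fun k : ℕ => (⌊ρ * (k : ℝ) ^ d⌋₊ : ℝ) / (k : ℝ) ^ d) atTop (𝓝 ρ) :=
        (tendsto_nat_floor_mul_div_atTop hρ0.le).comp
          ((tendsto_pow_atTop (by omega)).comp hL)
      have ht := hf ρ hρ0 hρl _ _ hL hN
      have hev := main ρ hρ0 hρl _ _ hL hN
      have ht2 := (ht.sub_const (Real.log ρ - 1 + ρ * ballVolume d (2 * a) / 2)).abs
      refine le_of_tendsto ht2 ?_
      filter_upwards [hev] with k hk
      rw [Z_eq d ha]
      exact hk.2
    have hj := K4H61.HS.jump_le hB0.le (by positivity) h1 h12 hlim haff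
    have h2 : 0 < ρ₂ := h1.trans h12
    have hsq : Real.exp (-(ε / 6) * (d : ℝ)) = Real.exp (-(ε / 12) * d) ^ 2 := by
      rw [← Real.exp_nat_mul]
      congr 1
      push_cast
      ring
    have h3 : (ρ₂ - ρ₁) ^ 2 ≤ (Real.exp (-(ε / 12) * d) * ρ₂) ^ 2 := by
      rw [mul_pow, ← hsq]
      refine hj.trans ?_
      have : 0 < Real.exp (-(ε / 6) * (d : ℝ)) * ρ₂ ^ 2 := by positivity
      linarith
    exact le_of_sq_le_sq h3 (by positivity)

end Pool.Agent.Results.MP_09cbbd_mp.HighDimensionalMeanField
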