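import Pool.Agent.K4H61.HS.W8

/-!
# No crystalline order of hard spheres in high dimension up to packing density
# `(log (2/√3) - ε) d 2^{-d}`

Let `B` be the volume of the ball of radius `2a` in `ℝ^d`. For every `ε > 0`, all large `d` and all
densities with `λ = ρ B ≤ (log (2/√3) - ε) d`, in the canonical ensemble of `N` hard spheres in
large cubes with an arbitrary boundary condition, and for every measurable `u` with values in
`[0, 1]` and mean `m` on the cube:

1. the free energy per particle in the external potential `s u`, `0 ≤ s ≤ 1`, is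
   `log ρ - 1 + λ/2 + s m` up to `s²/8 + exp (-ε d / 13)`: it has no cusp at `s = 0`;
2. the average of `u` over the particles differs from `m` by `δ` or more with probability at most
   `2 exp (-(2 δ² - exp (-ε d / 6)) N)`.

So neither periodic external potentials of any period nor boundary conditions can create an order
of more than exponentially small amplitude.

Proof: the partition function with one-particle weights is bounded from above by the counting
method of Kleitman and Winston with weights, where the supersaturation comes from a lower bound for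
the Fourier transform of the ball, applied to weighted indicator functions; the lower bound is the
mean field theorem of the file HighDimensionalMeanField in a slightly smaller cube.
-/

set_option autoImplicit false
open MeasureTheory Filter Topology

namespace Pool.Agent.Results.MP_09cbbd_mp.NoCrystallineOrder

/-- The positions of `N` points in the cube `[0, L]^d` with mutual distances at least `2 a` and
with distances at least `2 a` from all points of the set `Y` (the boundary condition). -/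
def Conf (d : ℕ) (a L : ℝ) (N : ℕ) (Y : Set (Fin d → ℝ)) : Set (Fin N → Fin d → ℝ) :=
  {x | (∀ i k, x i k ∈ Set.Icc (0 : ℝ) L) ∧
    (∀ i j, i ≠ j → 2 * a ≤ √(∑ k, (x i k - x j k) ^ 2)) ∧
    ∀ i, ∀ y ∈ Y, 2 * a ≤ √(∑ k, (x i k - y k) ^ 2)}

/-- The partition function `(1/N!) ∫ exp (-s ∑ u(x_i)) dx` over the configurations of `N` hard
spheres of radius `a` in the cube, in the external potential `s u`. -/
noncomputable def Z (d : ℕ) (a L : ℝ) (N : ℕ) (Y : Set (Fin d → ℝ)) (s : ℝ)
    (u : (Fin d → ℝ) → ℝ) : ℝ :=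
  1 / (N.factorial : ℝ) * ∫ x in Conf d a L N Y, Real.exp (-(s * ∑ i, u (x i)))

/-- The probability of the event `E` in the canonical ensemble: the uniform distribution on the
configurations. -/
noncomputable def Prob (d : ℕ) (a L : ℝ) (N : ℕ) (Y : Set (Fin d → ℝ))
    (E : Set (Fin N → Fin d → ℝ)) : ℝ :=
  (volume (Conf d a L N Y ∩ E)).toReal / (volume (Conf d a L N Y)).toReal

/-- The mean of `u` on the cube `[0, L]^d`. -/
noncomputable def mean (d : ℕ) (L : ℝ) (u : (Fin d → ℝ) → ℝ) : ℝ :=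
  (∫ y in {y : Fin d → ℝ | ∀ k, y k ∈ Set.Icc (0 : ℝ) L}, u y) / L ^ d

/-- The volume of the ball of radius `r` in `ℝ^d`. -/
noncomputable def ballVolume (d : ℕ) (r : ℝ) : ℝ :=
  (volume {x : Fin d → ℝ | ∑ k, x k ^ 2 < r ^ 2}).toReal

lemma Conf_eq (d : ℕ) {a : ℝ} (ha : 0 < a) (L : ℝ) (N : ℕ) (Y : Set (Fin d → ℝ)) :
    Conf d a L N Y = K4H61.HS.cfgb d (2 * a) L N Y := by
  have hd : ∀ x y : Fin d → ℝ, (2 * a ≤ √(∑ k, (x k - y k) ^ 2)) ↔
      (2 * a) ^ 2 ≤ ∑ k, (x k - y k) ^ 2 := fun x y => Real.le_sqrt' (by positivity)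
  ext x
  constructor
  · rintro ⟨h1, h2, h3⟩
    exact ⟨⟨h1, fun i j hij => (hd _ _).1 (h2 i j hij)⟩, fun i y hy => (hd _ _).1 (h3 i y hy)⟩
  · rintro ⟨⟨h1, h2⟩, h3⟩
    exact ⟨h1, fun i j hij => (hd _ _).2 (h2 i j hij), fun i y hy => (hd _ _).2 (h3 i y hy)⟩

/-- **No crystalline order in high dimension.** -/
theorem result (ε : ℝ) (hε : 0 < ε) : ∃ d₀ : ℕ, ∀ d ≥ d₀, ∀ a > 0, ∀ ρ > 0,
    ρ * ballVolume d (2 * a) ≤ (Real.log (2 / √3) - ε) * d →
    ∀ (L : ℕ → ℝ) (N : ℕ → ℕ), Tendsto L atTop atTop →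
    Tendsto (fun k => (N k : ℝ) / L k ^ d) atTop (𝓝 ρ) →
    ∀ᶠ k in atTop, ∀ Y : Set (Fin d → ℝ), (∀ y ∈ Y, ∃ i, y i ≤ 0 ∨ L k ≤ y i) →
      ∀ u : (Fin d → ℝ) → ℝ, Measurable u → (∀ y, u y ∈ Set.Icc (0 : ℝ) 1) →
        (∀ s : ℝ, 0 ≤ s → s ≤ 1 → 0 < Z d a (L k) (N k) Y s u ∧
          |-(1 / (N k : ℝ)) * Real.log (Z d a (L k) (N k) Y s u) -
            (Real.log ρ - 1 + ρ * ballVolume d (2 * a) / 2 + s * mean d (L k) u)| ≤
              s ^ 2 / 8 + Real.exp (-(ε / 13) * d)) ∧
        ∀ δ : ℝ, 0 ≤ δ →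
          Prob d a (L k) (N k) Y {x | δ ≤ |(∑ i, u (x i)) / N k - mean d (L k) u|} ≤
            2 * Real.exp (-(2 * δ ^ 2 - Real.exp (-(ε / 6) * d)) * N k) := by
  obtain ⟨d₀, hd₀⟩ := eventually_atTop.1 ((K4H61.HS.field ε hε).and (K4H61.HS.conc ε hε))
  refine ⟨d₀, fun d hd a ha ρ hρ hlam L N hL hN => ?_⟩
  have ha2 : 0 < 2 * a := by positivity
  obtain ⟨h1, h2⟩ := hd₀ d hd
  have e1 : -(ε / 6 * (d : ℝ)) = -(ε / 6) * d := by ring
  have e2 : -(ε / 13 * (d : ℝ)) = -(ε / 13) * d := by ring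
  rw [e2] at h1
  rw [e1] at h2
  filter_upwards [h1 (2 * a) ha2 ρ hρ hlam L N hL hN, h2 (2 * a) ha2 ρ hρ hlam L N hL hN] with
    k k1 k2
  intro Y hY u hu hu01
  obtain ⟨k3, k4⟩ := k2 Y hY
  have hC := Conf_eq d ha (L k) (N k) Y
  constructor
  · intro s hs0 hs1
    have hZ : Z d a (L k) (N k) Y s u = K4H61.HS.Zf d (2 * a) (L k) (N k) Y s u := by
      unfold Z K4H61.HS.Zf
      rw [hC, one_div, inv_mul_eq_div]
    rw [hZ]
    exact k1 Y hY u hu hu01 s hs0 hs1
  · intro δ hδ
    have h5 := k4 u hu hu01 δ hδ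
    unfold Prob
    rw [hC, div_le_iff₀ k3]
    have e3 : -((2 * δ ^ 2 - Real.exp (-(ε / 6) * (d : ℝ))) * N k) =
        -(2 * δ ^ 2 - Real.exp (-(ε / 6) * (d : ℝ))) * N k := by ring
    rw [e3] at h5
    exact h5

end Pool.Agent.Results.MP_09cbbd_mp.NoCrystallineOrder
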