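import Mathlib
import Pool.Agent.K4H96.HS.Free

/-!
# MP_09cbbd_mp: every first-order transition of the hard-sphere gas is weak

A first-order transition between the densities `ρ₁ < ρ₂` is a flat part of the isotherm: the free
energy per particle is an affine function of the volume per particle `1/ρ`, `f = c - p/ρ`, with the
pressure `p`. Let `R = ρ₂/ρ₁` be the ratio of the densities, `S = p (1/ρ₁ - 1/ρ₂)` the jump of the
entropy per particle and `φ₁ = f(ρ₁) - (log ρ₁ - 1) ≥ 0` the excess free energy at `ρ₁`. Then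

* `S + (d - 1) log R + φ₁ ≤ d log (p/ρ₁)`;
* `(R - 1)^d exp φ₁ ≤ (d/e)^d R`; in particular `R < 2.06` for hard disks and `R < 2.5` for `d = 3`.

The proof uses the pressure inequality `p/ρ ≥ exp (f_exc/d)`, valid at every density, which comes
from a Brunn-Minkowski inequality for the configuration spaces.
-/

set_option autoImplicit false

open MeasureTheory Set Filter Topology

namespace Pool.Agent.Results.MP_09cbbd_mp.TransitionJump

open Pool.Agent.K4H96.HS

theorem result :
    ∀ d : ℕ, 1 ≤ d → ∀ a : ℝ, 0 < a →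
      ∀ ρ₁ ρ₂ p c : ℝ, 0 < ρ₁ → ρ₁ < ρ₂ →
        (∀ r ∈ Icc ρ₁ ρ₂, IsFreeEnergy d a r (c - p / r)) →
        0 ≤ (c - p / ρ₁) - (Real.log ρ₁ - 1) ∧
        p * (1 / ρ₁ - 1 / ρ₂) + (d - 1) * Real.log (ρ₂ / ρ₁) +
            ((c - p / ρ₁) - (Real.log ρ₁ - 1)) ≤ d * Real.log (p / ρ₁) ∧
        (ρ₂ / ρ₁ - 1) ^ d * Real.exp ((c - p / ρ₁) - (Real.log ρ₁ - 1)) ≤
          (d / Real.exp 1) ^ d * (ρ₂ / ρ₁) := by
  intro d hd a _
  have hd' : (0:ℝ) < d := by exact_mod_cast hd
  · intro ρ₁ ρ₂ p c h₁ h₁₂ hf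
    obtain ⟨hφ, hp, hj⟩ := jump_ineq hd a ρ₁ ρ₂ p c h₁ h₁₂ hf
    refine ⟨hφ, hj, ?_⟩
    have h₂ : 0 < ρ₂ := h₁.trans h₁₂
    set φ := (c - p / ρ₁) - (Real.log ρ₁ - 1) with hφdef
    set R := ρ₂ / ρ₁ with hR
    have hR1 : 1 < R := by rw [hR, lt_div_iff₀ h₁]; linarith
    have hR0 : 0 < R := by linarith
    set t := p * (1 / ρ₁ - 1 / ρ₂) with ht
    have et : t = p / ρ₁ * ((R - 1) / R) := by
      rw [ht, hR]
      field_simp
    have htpos : 0 < t := by
      rw [et]
      have : 0 < R - 1 := by linarith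
      positivity
    have hlogp : Real.log (p / ρ₁) = Real.log t - Real.log (R - 1) + Real.log R := by
      have hR1' : 0 < R - 1 := by linarith
      rw [et, Real.log_mul (by positivity) (by positivity), Real.log_div hR1'.ne' hR0.ne']
      ring
    -- maximise `d log t - t`
    have hmax : d * Real.log t - t ≤ d * Real.log d - d := by
      have h5 := Real.log_le_sub_one_of_pos (div_pos htpos hd')
      rw [Real.log_div htpos.ne' hd'.ne'] at h5
      have h6 : d * (Real.log t - Real.log d) ≤ d * (t / d - 1) := by gcongr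
      have h7 : (d:ℝ) * (t / d - 1) = t - d := by field_simp
      rw [h7] at h6
      nlinarith
    have hR1' : 0 < R - 1 := by linarith
    have hfin : d * Real.log (R - 1) + φ ≤ d * Real.log d - d + Real.log R := by
      rw [hlogp] at hj
      nlinarith [hj, hmax]
    have e1 : (R - 1) ^ d * Real.exp φ = Real.exp (d * Real.log (R - 1) + φ) := by
      rw [Real.exp_add, mul_comm (d:ℝ) (Real.log (R - 1)), Real.exp_mul, Real.exp_log hR1',
        Real.rpow_natCast]
    have e2 : (d / Real.exp 1) ^ d * R = Real.exp (d * Real.log d - d + Real.log R) := by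
      rw [Real.exp_add, Real.exp_log hR0, Real.exp_sub, mul_comm (d:ℝ) (Real.log d), Real.exp_mul,
        Real.exp_log hd', Real.rpow_natCast, div_pow, ← Real.exp_nat_mul, mul_one]
    rw [e1, e2]
    exact Real.exp_le_exp.mpr hfin

end Pool.Agent.Results.MP_09cbbd_mp.TransitionJump
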